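import Pool.Agent.P.MP_4f6efa_gt.Delta

/-!
The core argument: a closed graph over an uncountable cube with a switching family of clopen sets
has an infinite fibre.
-/

set_option autoImplicit false

namespace Pool.Agent.P.MP_4f6efa_gt

open Set TopologicalSpace

section AD

variable {Y L : Type*} [TopologicalSpace Y] [TopologicalSpace L]

/-- Points whose fibre meets `U`. -/
def AA (Γ : Set (Y × L)) (U : Set L) : Set Y := {y | ∃ s ∈ U, (y, s) ∈ Γ}

/-- The regular closed part of `AA Γ U`. -/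
def DD (Γ : Set (Y × L)) (U : Set L) : Set Y := closure (interior (AA Γ U))

theorem AA_closed [CompactSpace L] {Γ : Set (Y × L)} (hΓ : IsClosed Γ) {U : Set L}
    (hU : IsClosed U) : IsClosed (AA Γ U) := by
  have h : AA Γ U = Prod.fst '' (Γ ∩ Prod.snd ⁻¹' U) := by
    ext y
    constructor
    · rintro ⟨s, hs, h⟩
      exact ⟨(y, s), ⟨h, hs⟩, rfl⟩
    · rintro ⟨⟨y', s⟩, ⟨h, hs⟩, rfl⟩
      exact ⟨s, hs, h⟩
  rw [h]
  exact isClosedMap_fst_of_compactSpace _ (hΓ.inter (hU.preimage continuous_snd))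

theorem DD_subset [CompactSpace L] {Γ : Set (Y × L)} (hΓ : IsClosed Γ) {U : Set L}
    (hU : IsClosed U) : DD Γ U ⊆ AA Γ U :=
  closure_minimal interior_subset (AA_closed hΓ hU)

omit [TopologicalSpace L] in
theorem DD_mono (Γ : Set (Y × L)) {U U' : Set L} (h : U ⊆ U') : DD Γ U ⊆ DD Γ U' :=
  closure_mono (interior_mono fun _ ⟨s, hs, h'⟩ => ⟨s, h hs, h'⟩)

theorem DD_union [CompactSpace L] {Γ : Set (Y × L)} (hΓ : IsClosed Γ) {U U' : Set L}
    (hU : IsClosed U) : DD Γ (U ∪ U') ⊆ DD Γ U ∪ DD Γ U' := by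
  have h1 : AA Γ (U ∪ U') = AA Γ U ∪ AA Γ U' := by
    ext y
    constructor
    · rintro ⟨s, hs | hs, h⟩
      · exact Or.inl ⟨s, hs, h⟩
      · exact Or.inr ⟨s, hs, h⟩
    · rintro (⟨s, hs, h⟩ | ⟨s, hs, h⟩)
      · exact ⟨s, Or.inl hs, h⟩
      · exact ⟨s, Or.inr hs, h⟩
  refine closure_minimal ?_ (isClosed_closure.union isClosed_closure)
  rw [h1]
  intro y hy
  by_contra hcon
  rw [mem_union, not_or] at hcon
  apply hcon.1
  apply subset_closure
  rw [mem_interior]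
  refine ⟨interior (AA Γ U ∪ AA Γ U') ∩ (DD Γ U')ᶜ, ?_,
    isOpen_interior.inter isClosed_closure.isOpen_compl, hy, hcon.2⟩
  rintro z ⟨hz1, hz2⟩
  rcases (AA_closed hΓ hU).interior_union_left hz1 with h | h
  · exact h
  · exact absurd (subset_closure h) hz2

theorem DD_split [CompactSpace L] {Γ : Set (Y × L)} (hΓ : IsClosed Γ) {U W : Set L}
    (hU : IsClosed U) (hW : IsClosed W) {y : Y} (hy : y ∈ DD Γ U) :
    y ∈ DD Γ (U ∩ W) ∨ y ∈ DD Γ (U \ W) := by
  rw [← inter_union_sdiff U W] at hy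
  exact DD_union hΓ (hU.inter hW) hy

theorem essential_point [CompactSpace L] {Γ : Set (Y × L)} (hΓ : IsClosed Γ) {U : Set L}
    (hU : IsClopen U) {y : Y} (hy : y ∈ DD Γ U) (hfin : {s | s ∈ U ∧ (y, s) ∈ Γ}.Finite) :
    ∃ s ∈ U, (y, s) ∈ Γ ∧ ∀ W, IsClopen W → s ∈ W → y ∈ DD Γ W := by
  have key : ∀ T : Finset L, ∀ U : Set L, IsClopen U → y ∈ DD Γ U →
      (∀ s ∈ U, (y, s) ∈ Γ → s ∈ T) →
      ∃ s ∈ U, (y, s) ∈ Γ ∧ ∀ W, IsClopen W → s ∈ W → y ∈ DD Γ W := by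
    classical
    intro T
    induction T using Finset.induction_on with
    | empty =>
      intro U hU hy hT
      obtain ⟨s, hs, h⟩ := DD_subset hΓ hU.isClosed hy
      exact absurd (hT s hs h) (Finset.notMem_empty s)
    | insert a T _ ih =>
      intro U hU hy hT
      by_cases ha : a ∈ U ∧ (y, a) ∈ Γ ∧ ∀ W, IsClopen W → a ∈ W → y ∈ DD Γ W
      · exact ⟨a, ha⟩
      · by_cases ha' : a ∈ U ∧ (y, a) ∈ Γ
        · have : ∃ W, IsClopen W ∧ a ∈ W ∧ y ∉ DD Γ W := by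
            by_contra hcon
            push Not at hcon
            exact ha ⟨ha'.1, ha'.2, hcon⟩
          obtain ⟨W, hW, haW, hyW⟩ := this
          rcases DD_split hΓ hU.isClosed hW.isClosed hy with h | h
          · exact absurd (DD_mono Γ inter_subset_right h) hyW
          · obtain ⟨s, hs, h'⟩ := ih (U \ W) (hU.diff hW) h (by
              intro s hs hs'
              rcases Finset.mem_insert.1 (hT s hs.1 hs') with rfl | h2
              · exact absurd haW hs.2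
              · exact h2)
            exact ⟨s, hs.1, h'⟩
        · apply ih U hU hy
          intro s hs hs'
          rcases Finset.mem_insert.1 (hT s hs hs') with rfl | h2
          · exact absurd ⟨hs, hs'⟩ ha'
          · exact h2
  exact key hfin.toFinset U hU hy fun s hs hs' => hfin.mem_toFinset.2 ⟨hs, hs'⟩

end AD

/-- One crossing: moving a single coordinate we find a point in both halves. -/
theorem crossing {ι L : Type*} [DecidableEq ι] [TopologicalSpace L] [CompactSpace L]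
    {Γ : Set ((ι → unitInterval) × L)} (hΓ : IsClosed Γ) {P W : Set L}
    (hP : IsClosed P) (hW : IsClosed W) (y : ι → unitInterval) (b : ι)
    (hall : ∀ t, Function.update y b t ∈ DD Γ P) (h0 : y ∈ DD Γ (P ∩ W))
    (h1 : Function.update y b 1 ∉ AA Γ W) :
    ∃ t, Function.update y b t ∈ DD Γ (P ∩ W) ∧ Function.update y b t ∈ DD Γ (P \ W) := by
  have hc : Continuous fun t : unitInterval => Function.update y b t :=
    continuous_const.update b continuous_id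
  have hpre : IsPreconnected (univ : Set unitInterval) := isPreconnected_univ
  obtain ⟨t, -, ht⟩ := isPreconnected_closed_iff.1 hpre
    ((fun t => Function.update y b t) ⁻¹' DD Γ (P ∩ W))
    ((fun t => Function.update y b t) ⁻¹' DD Γ (P \ W))
    (isClosed_closure.preimage hc) (isClosed_closure.preimage hc)
    (fun t _ => DD_split hΓ hP hW (hall t))
    ⟨y b, mem_univ _, by simpa using h0⟩
    ⟨1, mem_univ _, by
      rcases DD_split hΓ hP hW (hall 1) with h | h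
      · exact absurd (DD_subset hΓ hW (DD_mono Γ inter_subset_right h)) h1
      · exact h⟩
  exact ⟨t, ht⟩

/-- A stage of the splitting construction. -/
structure Stage {ι L : Type*} [TopologicalSpace L] (Γ : Set ((ι → unitInterval) × L))
    (U₀ : Set L) (k : ℕ) where
  A : Set ι
  y : ι → unitInterval
  c : L → ℕ
  hA : A.Countable
  hc : ∀ s, c s ≤ k
  hclopen : ∀ j, IsClopen (U₀ ∩ c ⁻¹' {j})
  hy : ∀ j ≤ k, ∀ z : ι → unitInterval, (∀ i ∈ A, z i = y i) → z ∈ DD Γ (U₀ ∩ c ⁻¹' {j})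

theorem DD_cover {Y L : Type*} [TopologicalSpace Y] [TopologicalSpace L] [CompactSpace L]
    {Γ : Set (Y × L)} (hΓ : IsClosed Γ) (P : ℕ → Set L) (hP : ∀ j, IsClosed (P j)) (k : ℕ)
    {y : Y} (hy : y ∈ DD Γ (⋃ j ≤ k, P j)) : ∃ j ≤ k, y ∈ DD Γ (P j) := by
  induction k with
  | zero => exact ⟨0, le_rfl, by simpa using hy⟩
  | succ k ih =>
    have h : (⋃ j ≤ k + 1, P j) = P (k + 1) ∪ ⋃ j ≤ k, P j := by
      ext s
      simp only [mem_iUnion, mem_union, exists_prop]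
      constructor
      · rintro ⟨j, hj, hs⟩
        rcases Nat.lt_or_eq_of_le hj with h | rfl
        · exact Or.inr ⟨j, Nat.lt_succ_iff.1 h, hs⟩
        · exact Or.inl hs
      · rintro (hs | ⟨j, hj, hs⟩)
        · exact ⟨k + 1, le_rfl, hs⟩
        · exact ⟨j, hj.trans (Nat.le_succ k), hs⟩
    rw [h] at hy
    rcases DD_union hΓ (hP _) hy with h1 | h1
    · exact ⟨k + 1, le_rfl, h1⟩
    · obtain ⟨j, hj, h2⟩ := ih h1
      exact ⟨j, hj.trans (Nat.le_succ k), h2⟩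

theorem stage_step {ι L : Type*} [DecidableEq ι] [TopologicalSpace L] [CompactSpace L]
    {Γ : Set ((ι → unitInterval) × L)} (hΓ : IsClosed Γ) {U₀ : Set L} {k : ℕ}
    (S : Stage Γ U₀ k) (b : ι) (hb : b ∉ S.A) {W : Set L} (hW : IsClopen W)
    (y : ι → unitInterval) (hy : ∀ i ∈ S.A, y i = S.y i) (h0 : y ∈ DD Γ (U₀ ∩ W))
    (h1 : Function.update y b 1 ∉ AA Γ W) :
    ∃ S' : Stage Γ U₀ (k + 1), S.A ⊆ S'.A ∧ ∀ i ∈ S.A, S'.y i = S.y i := by
  classical
  have hcover : U₀ ∩ W = ⋃ j ≤ k, (U₀ ∩ S.c ⁻¹' {j}) ∩ W := by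
    ext s
    simp only [mem_iUnion, mem_inter_iff, mem_preimage, mem_singleton_iff, exists_prop]
    constructor
    · rintro ⟨h2, h3⟩
      exact ⟨S.c s, S.hc s, ⟨h2, rfl⟩, h3⟩
    · rintro ⟨j, -, ⟨h2, -⟩, h3⟩
      exact ⟨h2, h3⟩
  rw [hcover] at h0
  obtain ⟨j, hj, hyj⟩ := DD_cover hΓ (fun j => (U₀ ∩ S.c ⁻¹' {j}) ∩ W)
    (fun j => (S.hclopen j).isClosed.inter hW.isClosed) k h0
  have hupd : ∀ t, ∀ i ∈ S.A, Function.update y b t i = S.y i := by
    intro t i hi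
    have hib : i ≠ b := fun h => hb (h ▸ hi)
    rw [Function.update_of_ne hib, hy i hi]
  obtain ⟨t, ht1, ht2⟩ := crossing hΓ (S.hclopen j).isClosed hW.isClosed y b
    (fun t => S.hy j hj _ (hupd t)) hyj h1
  obtain ⟨A₁, hA₁, hdep₁⟩ := exists_countable_dep
    (isOpen_interior (s := AA Γ ((U₀ ∩ S.c ⁻¹' {j}) ∩ W)))
  obtain ⟨A₂, hA₂, hdep₂⟩ := exists_countable_dep
    (isOpen_interior (s := AA Γ ((U₀ ∩ S.c ⁻¹' {j}) \ W)))
  let c' : L → ℕ := fun s => if S.c s = j ∧ s ∈ W then k + 1 else S.c s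
  have e1 : U₀ ∩ c' ⁻¹' {k + 1} = (U₀ ∩ S.c ⁻¹' {j}) ∩ W := by
    ext s
    have := S.hc s
    simp only [mem_inter_iff, mem_preimage, mem_singleton_iff, c']
    split_ifs with h
    · simp [h]
    · constructor
      · rintro ⟨-, h2⟩; omega
      · rintro ⟨⟨-, h2⟩, h3⟩; exact absurd ⟨h2, h3⟩ h
  have e2 : U₀ ∩ c' ⁻¹' {j} = (U₀ ∩ S.c ⁻¹' {j}) \ W := by
    ext s
    simp only [mem_inter_iff, mem_sdiff, mem_preimage, mem_singleton_iff, c']
    split_ifs with h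
    · constructor
      · rintro ⟨-, h2⟩; omega
      · rintro ⟨-, h3⟩; exact absurd h.2 h3
    · constructor
      · rintro ⟨h1, h2⟩; exact ⟨⟨h1, h2⟩, fun h3 => h ⟨h2, h3⟩⟩
      · rintro ⟨h2, -⟩; exact h2
  have e3 : ∀ m, m ≠ j → m ≠ k + 1 → U₀ ∩ c' ⁻¹' {m} = U₀ ∩ S.c ⁻¹' {m} := by
    intro m hm1 hm2
    ext s
    simp only [mem_inter_iff, mem_preimage, mem_singleton_iff, c']
    split_ifs with h
    · constructor
      · rintro ⟨-, h2⟩; omega
      · rintro ⟨-, h3⟩; exact absurd (h3.symm.trans h.1) hm1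
    · rfl
  refine ⟨⟨S.A ∪ A₁ ∪ A₂, Function.update y b t, c', (S.hA.union hA₁).union hA₂, ?_, ?_, ?_⟩,
    fun i hi => Or.inl (Or.inl hi), hupd t⟩
  · intro s
    have := S.hc s
    simp only [c']
    split_ifs <;> omega
  · intro m
    by_cases hm1 : m = j
    · rw [hm1, e2]; exact (S.hclopen j).diff hW
    · by_cases hm2 : m = k + 1
      · rw [hm2, e1]; exact (S.hclopen j).inter hW
      · rw [e3 m hm1 hm2]; exact S.hclopen m
  · intro m hm z hz
    by_cases hm1 : m = j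
    · rw [hm1, e2]
      exact hdep₂ _ z (fun i hi => hz i (Or.inr hi)) ht2
    · by_cases hm2 : m = k + 1
      · rw [hm2, e1]
        exact hdep₁ _ z (fun i hi => hz i (Or.inl (Or.inr hi))) ht1
      · rw [e3 m hm1 hm2]
        refine S.hy m (by omega) z fun i hi => ?_
        rw [hz i (Or.inl (Or.inl hi)), hupd t i hi]

theorem core {ι L : Type*} [DecidableEq ι] [TopologicalSpace L] [CompactSpace L]
    {Γ : Set ((ι → unitInterval) × L)} (hΓ : IsClosed Γ) {B : Set ι} (hB : ¬ B.Countable)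
    (U : ι → Set L) (hU : ∀ b, IsClopen (U b)) (V : ι → Set (ι → unitInterval))
    (hVo : ∀ b ∈ B, IsOpen (V b)) (hVne : ∀ b ∈ B, (V b).Nonempty)
    (H1 : ∀ b ∈ B, V b ⊆ AA Γ (U b))
    (H2 : ∀ b ∈ B, ∀ y ∈ V b, Function.update y b 1 ∉ AA Γ (U b))
    (H3 : ∀ y, {s | (y, s) ∈ Γ ∧ ∃ b ∈ B, y ∈ V b ∧ s ∈ U b}.Finite) : False := by
  classical
  have hVD : ∀ b ∈ B, V b ⊆ DD Γ (U b) := fun b hb =>
    (interior_maximal (H1 b hb) (hVo b hb)).trans subset_closure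
  -- a point common to uncountably many of the open sets
  obtain ⟨B₁, hB₁, hB₁c, y₀, R₀, D₀, -, hy₀⟩ := unif V hB hVo hVne
  have hy₀V : ∀ b ∈ B₁, y₀ ∈ V b := fun b hb => hy₀ b hb y₀ (fun _ _ => rfl) (fun _ _ => rfl)
  have h1 : ∀ b : ι, ∃ s : Option (H3 y₀).toFinset, b ∈ B₁ → ∃ s', s = some s' ∧
      (s' : L) ∈ U b ∧ ∀ W, IsClopen W → (s' : L) ∈ W → y₀ ∈ DD Γ W := by
    intro b
    by_cases hb : b ∈ B₁
    · obtain ⟨s, hs1, hs2, hs3⟩ := essential_point hΓ (hU b) (hVD b (hB₁ hb) (hy₀V b hb))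
        ((H3 y₀).subset fun s hs => ⟨hs.2, b, hB₁ hb, hy₀V b hb, hs.1⟩)
      exact ⟨some ⟨s, (H3 y₀).mem_toFinset.2 ⟨hs2, b, hB₁ hb, hy₀V b hb, hs1⟩⟩,
        fun _ => ⟨_, rfl, hs1, hs3⟩⟩
    · exact ⟨none, fun h => absurd h hb⟩
  choose σ hσ using h1
  obtain ⟨x, hx⟩ := pigeon hB₁c σ
  set B₂ := {b | b ∈ B₁ ∧ σ b = x} with hB₂
  have hB₂ne : B₂.Nonempty := by
    by_contra hcon
    rw [not_nonempty_iff_eq_empty] at hcon
    exact hx (hcon ▸ countable_empty)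
  obtain ⟨b₀, hb₀⟩ := hB₂ne
  have hpair : ∀ b ∈ B₂, y₀ ∈ DD Γ (U b₀ ∩ U b) := by
    intro b hb
    obtain ⟨s, hs1, hs2, hs3⟩ := hσ b hb.1
    obtain ⟨s', hs1', hs2', -⟩ := hσ b₀ hb₀.1
    have : s' = s := Option.some_injective _ (by rw [← hs1, ← hs1', hb.2, hb₀.2])
    subst this
    exact hs3 _ ((hU b₀).inter (hU b)) ⟨hs2', hs2⟩
  -- second uniformisation
  obtain ⟨B₃, hB₃, hB₃c, y₁, R, D, hD, hy₁⟩ := unif
    (fun b => interior (AA Γ (U b₀ ∩ U b)) ∩ (V b₀ ∩ V b)) hx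
    (fun b hb => isOpen_interior.inter ((hVo b₀ (hB₁ hb₀.1)).inter (hVo b (hB₁ hb.1))))
    (fun b hb => by
      obtain ⟨z, hz1, hz2⟩ := mem_closure_iff.1 (hpair b hb) (V b₀ ∩ V b)
        ((hVo b₀ (hB₁ hb₀.1)).inter (hVo b (hB₁ hb.1))) ⟨hy₀V b₀ hb₀.1, hy₀V b hb.1⟩
      exact ⟨z, hz2, hz1⟩)
  have hfresh : ∀ A : Set ι, A.Countable → ∃ b ∈ B₃, b ∉ A ∧ ∀ i ∈ D b, i ∉ A := by
    intro A hA
    by_contra hcon
    push Not at hcon
    apply hB₃c
    have h2 : (A ∪ ⋃ i ∈ A, {b | b ∈ B₃ ∧ i ∈ D b}).Countable := by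
      refine hA.union (hA.biUnion fun i _ => Set.Subsingleton.countable ?_)
      intro a ha b hb
      by_contra hab
      exact Finset.disjoint_left.1 (hD a ha.1 b hb.1 hab) ha.2 hb.2
    refine h2.mono fun b hb => ?_
    by_cases hbA : b ∈ A
    · exact Or.inl hbA
    · obtain ⟨i, hi1, hi2⟩ := hcon b hb hbA
      exact Or.inr (mem_biUnion hi2 ⟨hb, hi1⟩)
  obtain ⟨b₁, hb₁, -⟩ := hfresh ∅ countable_empty
  set A₀ : Set ι := (R : Set ι) ∪ (D b₁ : Set ι) with hA₀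
  have hA₀V : ∀ z : ι → unitInterval, (∀ i ∈ A₀, z i = y₁ i) → z ∈ V b₀ := fun z hz =>
    (hy₁ b₁ hb₁ z (fun i hi => hz i (Or.inl hi)) (fun i hi => hz i (Or.inr hi))).2.1
  let S₀ : Stage Γ (U b₀) 0 :=
    { A := A₀
      y := y₁
      c := fun _ => 0
      hA := R.countable_toSet.union (D b₁).countable_toSet
      hc := fun _ => le_rfl
      hclopen := fun j => (hU b₀).inter (by
        by_cases hj : j = 0
        · subst hj; simpa using isClopen_univ
        · have : (fun _ : L => 0) ⁻¹' {j} = ∅ := by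
            ext s; simp [Ne.symm hj]
          rw [this]; exact isClopen_empty)
      hy := by
        intro j hj z hz
        have : j = 0 := by omega
        subst this
        simpa using hVD b₀ (hB₁ hb₀.1) (hA₀V z hz) }
  have hstep : ∀ k, ∀ S : {S : Stage Γ (U b₀) k // A₀ ⊆ S.A ∧ ∀ i ∈ A₀, S.y i = y₁ i},
      ∃ S' : {S : Stage Γ (U b₀) (k + 1) // A₀ ⊆ S.A ∧ ∀ i ∈ A₀, S.y i = y₁ i},
        S.1.A ⊆ S'.1.A ∧ ∀ i ∈ S.1.A, S'.1.y i = S.1.y i := by
    rintro k ⟨S, hS1, hS2⟩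
    obtain ⟨b, hb, hbA, hbD⟩ := hfresh S.A S.hA
    let y : ι → unitInterval := fun i => if i ∈ D b then y₁ i else S.y i
    have hyO := hy₁ b hb y (fun i hi => by
        by_cases h : i ∈ D b
        · simp only [y, h, if_true]
        · simp only [y, h, if_false]; exact hS2 i (Or.inl hi))
      (fun i hi => by simp only [y, hi, if_true])
    obtain ⟨S', h1, h2⟩ := stage_step hΓ S b hbA (hU b) y
      (fun i hi => by
        have : i ∉ D b := fun h => hbD i h hi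
        simp only [y, this, if_false])
      (subset_closure hyO.1) (H2 b (hB₁ (hB₃ hb).1) y hyO.2.2)
    exact ⟨⟨S', hS1.trans h1, fun i hi => (h2 i (hS1 hi)).trans (hS2 i hi)⟩, h1, h2⟩
  choose nxt hnxt using hstep
  let S : ∀ k, {S : Stage Γ (U b₀) k // A₀ ⊆ S.A ∧ ∀ i ∈ A₀, S.y i = y₁ i} := fun k =>
    Nat.rec ⟨S₀, Subset.rfl, fun _ _ => rfl⟩ (fun k S => nxt k S) k
  have hS : ∀ k, (S k).1.A ⊆ (S (k + 1)).1.A ∧
      ∀ i ∈ (S k).1.A, (S (k + 1)).1.y i = (S k).1.y i := fun k => hnxt k (S k)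
  let C : ℕ → Set (ι → unitInterval) := fun k => {z | ∀ i ∈ (S k).1.A, z i = (S k).1.y i}
  have hCc : ∀ k, IsClosed (C k) := by
    intro k
    simp only [C, ofPred_forall]
    exact isClosed_iInter fun i => isClosed_iInter fun _ =>
      isClosed_eq (continuous_apply i) continuous_const
  obtain ⟨z, hz⟩ := IsCompact.nonempty_iInter_of_sequence_nonempty_isCompact_isClosed C
    (fun k w hw i hi => (hw i ((hS k).1 hi)).trans ((hS k).2 i hi))
    (fun k => ⟨(S k).1.y, fun _ _ => rfl⟩) (hCc 0).isCompact hCc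
  rw [mem_iInter] at hz
  have hzV : z ∈ V b₀ := hA₀V z fun i hi => (hz 0 i ((S 0).2.1 hi)).trans ((S 0).2.2 i hi)
  set k := (H3 z).toFinset.card with hk
  have h3 : ∀ j : Fin (k + 1), ∃ s ∈ (H3 z).toFinset, (S k).1.c s = j := by
    intro j
    obtain ⟨s, hs1, hs2⟩ := DD_subset hΓ ((S k).1.hclopen j).isClosed
      ((S k).1.hy j (Nat.lt_succ_iff.1 j.2) z (hz k))
    exact ⟨s, (H3 z).mem_toFinset.2 ⟨hs2, b₀, hB₁ hb₀.1, hzV, hs1.1⟩, hs1.2⟩
  choose f hf1 hf2 using h3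
  have h4 := Finset.card_le_card_of_injOn (s := Finset.univ) (t := (H3 z).toFinset) f
    (fun j _ => hf1 j) (fun a _ b _ hab => Fin.ext (by rw [← hf2 a, ← hf2 b, hab]))
  rw [Finset.card_univ, Fintype.card_fin] at h4
  omega

end Pool.Agent.P.MP_4f6efa_gt
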