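import Mathlib

/-!
Delta-system lemma and its consequences for open subsets of uncountable powers.
-/

set_option autoImplicit false

namespace Pool.Agent.P.MP_4f6efa_gt

open Set TopologicalSpace

theorem exists_max_pairwise {β : Type*} (r : β → β → Prop) (hr : ∀ a b, r a b → r b a)
    (B : Set β) :
    ∃ M ⊆ B, M.Pairwise r ∧ ∀ b ∈ B, b ∉ M → ∃ m ∈ M, ¬ r b m := by
  obtain ⟨M, hM⟩ := zorn_subset {M : Set β | M ⊆ B ∧ M.Pairwise r} (by
    intro c hc hchain
    refine ⟨⋃₀ c, ⟨sUnion_subset fun s hs => (hc hs).1, ?_⟩, fun s hs => subset_sUnion_of_mem hs⟩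
    rintro x ⟨s, hs, hxs⟩ y ⟨t, ht, hyt⟩ hxy
    rcases hchain.total hs ht with h | h
    · exact (hc ht).2 (h hxs) hyt hxy
    · exact (hc hs).2 hxs (h hyt) hxy)
  refine ⟨M, hM.1.1, hM.1.2, fun b hb hbM => ?_⟩
  by_contra hcon
  push Not at hcon
  have h1 : insert b M ∈ {M : Set β | M ⊆ B ∧ M.Pairwise r} := by
    refine ⟨insert_subset hb hM.1.1, ?_⟩
    rintro x (rfl | hx) y (rfl | hy) hxy
    · exact absurd rfl hxy
    · exact hcon y hy
    · exact hr _ _ (hcon x hx)
    · exact hM.1.2 hx hy hxy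
  exact hbM (hM.2 h1 (subset_insert b M) (mem_insert b M))

theorem pigeon {β γ : Type*} [Countable γ] {B : Set β} (hB : ¬ B.Countable) (c : β → γ) :
    ∃ x, ¬ {b | b ∈ B ∧ c b = x}.Countable := by
  by_contra hcon
  push Not at hcon
  apply hB
  refine (countable_iUnion hcon).mono fun b hb => ?_
  exact mem_iUnion.2 ⟨c b, hb, rfl⟩

theorem delta_aux {β ι : Type*} (n : ℕ) : ∀ (E : β → Finset ι) (B : Set β), ¬ B.Countable →
    (∀ b ∈ B, (E b).card ≤ n) →
    ∃ B' ⊆ B, ¬ B'.Countable ∧ ∃ R : Finset ι,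
      ∀ b ∈ B', ∀ b' ∈ B', b ≠ b' → ∀ i, i ∈ E b → i ∈ E b' → i ∈ R := by
  classical
  induction n with
  | zero =>
    intro E B hB hE
    refine ⟨B, Subset.rfl, hB, ∅, fun b hb b' _ _ i hi _ => ?_⟩
    have : E b = ∅ := Finset.card_eq_zero.1 (Nat.le_zero.1 (hE b hb))
    rw [this] at hi
    exact hi
  | succ n ih =>
    intro E B hB hE
    by_cases h : ∃ j, ¬ {b | b ∈ B ∧ j ∈ E b}.Countable
    · obtain ⟨j, hj⟩ := h
      obtain ⟨B', hB'1, hB'2, R, hR⟩ := ih (fun b => (E b).erase j) _ hj (by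
        rintro b ⟨hb, hjb⟩
        have := hE b hb
        rw [Finset.card_erase_of_mem hjb]
        omega)
      refine ⟨B', fun b hb => (hB'1 hb).1, hB'2, insert j R, fun b hb b' hb' hne i hi hi' => ?_⟩
      by_cases hij : i = j
      · simp [hij]
      · exact Finset.mem_insert_of_mem
          (hR b hb b' hb' hne i (Finset.mem_erase.2 ⟨hij, hi⟩) (Finset.mem_erase.2 ⟨hij, hi'⟩))
    · push Not at h
      obtain ⟨M, hM1, hM2, hM3⟩ := exists_max_pairwise (fun b b' => Disjoint (E b) (E b'))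
        (fun _ _ h => h.symm) B
      refine ⟨M, hM1, fun hMc => hB ?_, ∅, fun b hb b' hb' hne i hi hi' => ?_⟩
      · have h1 : (M ∪ ⋃ m ∈ M, ⋃ j ∈ (E m : Set ι), {b | b ∈ B ∧ j ∈ E b}).Countable :=
          hMc.union (hMc.biUnion fun m _ => (E m).countable_toSet.biUnion fun j _ => h j)
        refine h1.mono fun b hb => ?_
        by_cases hbM : b ∈ M
        · exact Or.inl hbM
        · right
          obtain ⟨m, hm, hbm⟩ := hM3 b hb hbM
          obtain ⟨j, hj1, hj2⟩ := Finset.not_disjoint_iff.1 hbm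
          simp only [mem_iUnion]
          exact ⟨m, hm, j, hj2, hb, hj1⟩
      · exact absurd hi' (Finset.disjoint_left.1 (hM2 hb hb' hne) hi)

theorem delta {β ι : Type*} (E : β → Finset ι) {B : Set β} (hB : ¬ B.Countable) :
    ∃ B' ⊆ B, ¬ B'.Countable ∧ ∃ R : Finset ι,
      ∀ b ∈ B', ∀ b' ∈ B', b ≠ b' → ∀ i, i ∈ E b → i ∈ E b' → i ∈ R := by
  obtain ⟨n, hn⟩ := pigeon hB (fun b => (E b).card)
  obtain ⟨B', h1, h2, h3⟩ := delta_aux n E _ hn (fun b hb => hb.2.le)
  exact ⟨B', fun b hb => (h1 hb).1, h2, h3⟩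

/-- Uniformisation of an uncountable family of nonempty open sets in a power. -/
theorem unif {β ι X : Type*} [TopologicalSpace X] [SeparableSpace X] [Nonempty X]
    (O : β → Set (ι → X)) {B : Set β} (hB : ¬ B.Countable)
    (hO : ∀ b ∈ B, IsOpen (O b)) (hne : ∀ b ∈ B, (O b).Nonempty) :
    ∃ B' ⊆ B, ¬ B'.Countable ∧ ∃ (y : ι → X) (R : Finset ι) (D : β → Finset ι),
      (∀ b ∈ B', ∀ b' ∈ B', b ≠ b' → Disjoint (D b) (D b')) ∧
      ∀ b ∈ B', ∀ z, (∀ i ∈ R, z i = y i) → (∀ i ∈ D b, z i = y i) → z ∈ O b := by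
  classical
  have h1 : ∀ b, ∃ (E : Finset ι) (q : ι → ℕ), b ∈ B →
      ∀ z : ι → X, (∀ i ∈ E, z i = denseSeq X (q i)) → z ∈ O b := by
    intro b
    by_cases hb : b ∈ B
    · obtain ⟨f, hf⟩ := hne b hb
      obtain ⟨I, u, hu, hI⟩ := isOpen_pi_iff.1 (hO b hb) f hf
      have h2 : ∀ i, ∃ k : ℕ, i ∈ I → denseSeq X k ∈ u i := by
        intro i
        by_cases hi : i ∈ I
        · obtain ⟨k, hk⟩ := (denseRange_denseSeq X).exists_mem_open (hu i hi).1 ⟨_, (hu i hi).2⟩
          exact ⟨k, fun _ => hk⟩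
        · exact ⟨0, fun h => absurd h hi⟩
      choose q hq using h2
      refine ⟨I, q, fun _ z hz => hI fun i hi => ?_⟩
      rw [hz i hi]
      exact hq i hi
    · exact ⟨∅, fun _ => 0, fun h => absurd h hb⟩
  choose E q hEq using h1
  obtain ⟨B₁, hB₁, hB₁c, R, hR⟩ := delta E hB
  obtain ⟨x, hx⟩ := pigeon hB₁c (fun b => fun i : R => q b i)
  set B₂ := {b | b ∈ B₁ ∧ (fun i : R => q b i) = x} with hB₂
  let y : ι → X := fun i =>
    if h : i ∈ R then denseSeq X (x ⟨i, h⟩)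
    else if h' : ∃ b ∈ B₂, i ∈ E b then denseSeq X (q h'.choose i) else denseSeq X 0
  refine ⟨B₂, fun b hb => hB₁ hb.1, hx, y, R, fun b => E b \ R, ?_, ?_⟩
  · intro b hb b' hb' hbb
    rw [Finset.disjoint_left]
    intro i hi hi'
    rw [Finset.mem_sdiff] at hi hi'
    exact hi.2 (hR b hb.1 b' hb'.1 hbb i hi.1 hi'.1)
  · intro b hb z hz1 hz2
    apply hEq b (hB₁ hb.1)
    intro i hi
    by_cases hiR : i ∈ R
    · rw [hz1 i hiR]
      have : x ⟨i, hiR⟩ = q b i := by rw [← hb.2]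
      simp only [y, hiR, dif_pos, this]
    · rw [hz2 i (Finset.mem_sdiff.2 ⟨hi, hiR⟩)]
      have h' : ∃ b ∈ B₂, i ∈ E b := ⟨b, hb, hi⟩
      have h3 : h'.choose = b := by
        by_contra hcon
        exact hiR (hR _ h'.choose_spec.1.1 b hb.1 hcon i h'.choose_spec.2 hi)
      simp only [y, hiR, dif_neg, not_false_eq_true, h', dif_pos, h3]

/-- Membership in `S` only depends on the coordinates in `A`. -/
def DepOn {ι X : Type*} (A : Set ι) (S : Set (ι → X)) : Prop :=
  ∀ y z : ι → X, (∀ i ∈ A, z i = y i) → y ∈ S → z ∈ S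

theorem DepOn.closure {ι X : Type*} [TopologicalSpace X] {A : Set ι} {S : Set (ι → X)}
    (h : DepOn A S) : DepOn A (closure S) := by
  classical
  intro y z hz hy
  let φ : (ι → X) → (ι → X) := fun w i => if i ∈ A then w i else z i
  have hφ : Continuous φ := by
    refine continuous_pi fun i => ?_
    by_cases hi : i ∈ A
    · simp only [φ, hi, if_true]; exact continuous_apply i
    · simp only [φ, hi, if_false]; exact continuous_const
  have h1 : φ y = z := by
    funext i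
    by_cases hi : i ∈ A
    · simp only [φ, hi, if_true]; exact (hz i hi).symm
    · simp only [φ, hi, if_false]
  rw [← h1]
  refine map_mem_closure hφ hy fun w hw => h w _ (fun i hi => ?_) hw
  simp only [φ, hi, if_true]

theorem exists_countable_dep {ι X : Type*} [TopologicalSpace X] [SeparableSpace X] [Nonempty X]
    {O : Set (ι → X)} (hO : IsOpen O) : ∃ A : Set ι, A.Countable ∧ DepOn A (closure O) := by
  obtain ⟨M, hM1, hM2, hM3⟩ := exists_max_pairwise (fun a b : Set (ι → X) => Disjoint a b)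
    (fun _ _ h => h.symm)
    {W | IsOpen W ∧ W.Nonempty ∧ W ⊆ O ∧ ∃ E : Finset ι, DepOn (E : Set ι) W}
  have hMc : M.Countable := by
    by_contra hcon
    obtain ⟨B', hB'1, hB'2, y, R, D, -, hy⟩ := unif (fun W : Set (ι → X) => W) hcon
      (fun W hW => (hM1 hW).1) (fun W hW => (hM1 hW).2.1)
    apply hB'2
    apply Set.Subsingleton.countable
    intro a ha b hb
    by_contra hab
    exact Set.disjoint_left.1 (hM2 (hB'1 ha) (hB'1 hb) hab)
      (hy a ha y (fun _ _ => rfl) (fun _ _ => rfl)) (hy b hb y (fun _ _ => rfl) (fun _ _ => rfl))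
  have h1 : ∀ W : Set (ι → X), ∃ E : Finset ι, W ∈ M → DepOn (E : Set ι) W := by
    intro W
    by_cases hW : W ∈ M
    · obtain ⟨E, hE⟩ := (hM1 hW).2.2.2
      exact ⟨E, fun _ => hE⟩
    · exact ⟨∅, fun h => absurd h hW⟩
  choose E hE using h1
  refine ⟨⋃ W ∈ M, (E W : Set ι), hMc.biUnion fun W _ => (E W).countable_toSet, ?_⟩
  have h2 : closure O = closure (⋃₀ M) := by
    apply Subset.antisymm
    · apply closure_minimal _ isClosed_closure
      intro f hf
      by_contra hcon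
      obtain ⟨I, u, hu, hI⟩ := isOpen_pi_iff.1 (hO.inter isClosed_closure.isOpen_compl) f ⟨hf, hcon⟩
      have hW : (I : Set ι).pi u ∈
          {W | IsOpen W ∧ W.Nonempty ∧ W ⊆ O ∧ ∃ E : Finset ι, DepOn (E : Set ι) W} := by
        refine ⟨isOpen_set_pi I.finite_toSet fun i hi => (hu i hi).1,
          ⟨f, fun i hi => (hu i hi).2⟩, fun z hz => (hI hz).1, I, ?_⟩
        intro y z hyz hy i hi
        rw [hyz i hi]
        exact hy i hi
      by_cases hWM : (I : Set ι).pi u ∈ M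
      · exact hcon (subset_closure ⟨_, hWM, fun i hi => (hu i hi).2⟩)
      · obtain ⟨m, hm, hdis⟩ := hM3 _ hW hWM
        obtain ⟨z, hz1, hz2⟩ := Set.not_disjoint_iff.1 hdis
        exact (hI hz1).2 (subset_closure ⟨m, hm, hz2⟩)
    · exact closure_mono (sUnion_subset fun W hW => (hM1 hW).2.2.1)
  rw [h2]
  apply DepOn.closure
  rintro y z hyz ⟨W, hW, hy⟩
  refine ⟨W, hW, hE W hW y z (fun i hi => hyz i ?_) hy⟩
  exact mem_biUnion hW hi

end Pool.Agent.P.MP_4f6efa_gt
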