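import Pool.Agent.P.MP_4f6efa_gt.Core

/-!
No continuous extender from the Cantor cube to the Tychonoff cube of uncountable weight.
-/

set_option autoImplicit false

namespace Pool.Agent.P.MP_4f6efa_gt

open Set TopologicalSpace Filter Topology

/-- The coordinate function. -/
def coord {ι : Type} (b : ι) : C(ι → Bool, Bool) := ⟨fun x => x b, continuous_apply b⟩

/-- Gluing two two-valued functions along disjoint finite sets. -/
theorem exists_glue {ι : Type} (g g' : C(ι → Bool, Bool)) (T S : Finset (ι → Bool)) :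
    ∃ h : C(ι → Bool, Bool), (∀ x ∈ T, h x = g x) ∧ ∀ x ∈ S, x ∉ T → h x = g' x := by
  classical
  have h1 : ∀ x y : ι → Bool, ∃ C : Set (ι → Bool), IsClopen C ∧ x ∈ C ∧ (x ≠ y → y ∉ C) := by
    intro x y
    by_cases hxy : x = y
    · exact ⟨univ, isClopen_univ, mem_univ _, fun h => absurd hxy h⟩
    · obtain ⟨C, hC, hx, hy⟩ := exists_isClopen_of_totally_separated hxy
      exact ⟨C, hC, hx, fun _ => hy⟩
  choose C hC hx hy using h1
  set W : Set (ι → Bool) := ⋃ x ∈ T, ⋂ y ∈ S, C x y with hW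
  have hWc : IsClopen W := isClopen_biUnion_finset fun x _ => isClopen_biInter_finset fun y _ => hC x y
  refine ⟨⟨fun x => if x ∈ W then g x else g' x, ?_⟩, fun x hxT => ?_, fun y hyS hyT => ?_⟩
  · refine Continuous.if ?_ g.continuous g'.continuous
    intro a ha
    have : frontier {x | x ∈ W} = ∅ := hWc.frontier_eq
    rw [this] at ha
    exact ha.elim
  · have : x ∈ W := mem_biUnion hxT (mem_biInter fun y _ => hx x y)
    simp [this]
  · have : y ∉ W := by
      intro h
      obtain ⟨x, hxT, h'⟩ := mem_iUnion₂.1 h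
      exact hy x y (fun h => hyT (h ▸ hxT)) (mem_iInter₂.1 h' y hyS)
    simp [this]

section

variable {ι : Type} (Φ : C(ι → Bool, Bool) → (ι → unitInterval) → ℝ)

/-- The graph of the forcing relation. -/
def Gam (n : ℕ) (σ : Fin n → Bool) : Set ((ι → unitInterval) × (Fin n → ι → Bool)) :=
  {p | ∀ g : C(ι → Bool, Bool), (∀ i, g (p.2 i) = σ i) → Φ g p.1 ≤ 1 / 2}

/-- Tuples on which the coordinate `b` has the pattern `σ`. -/
def Pat {ι : Type} (n : ℕ) (σ : Fin n → Bool) (b : ι) : Set (Fin n → ι → Bool) :=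
  {s | ∀ i, s i b = σ i}

theorem isClopen_eq_comp {Z : Type*} [TopologicalSpace Z] {f : Z → Bool} (hf : Continuous f)
    (c : Bool) : IsClopen {z | f z = c} :=
  (isClopen_discrete {c}).preimage hf

theorem Pat_clopen (n : ℕ) (σ : Fin n → Bool) (b : ι) : IsClopen (Pat n σ b) := by
  simp only [Pat, ofPred_forall]
  exact isClopen_iInter_of_finite fun i =>
    isClopen_eq_comp ((continuous_apply b).comp (continuous_apply i)) _

theorem Gam_closed (hy : ∀ g, Continuous (Φ g)) (n : ℕ) (σ : Fin n → Bool) :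
    IsClosed (Gam Φ n σ) := by
  simp only [Gam, ofPred_forall]
  refine isClosed_iInter fun g => ?_
  have h1 : IsClopen {p : (ι → unitInterval) × (Fin n → ι → Bool) | ∀ i, g (p.2 i) = σ i} := by
    simp only [ofPred_forall]
    exact isClopen_iInter_of_finite fun i =>
      isClopen_eq_comp (g.continuous.comp ((continuous_apply i).comp continuous_snd)) _
  have h2 : IsClosed {p : (ι → unitInterval) × (Fin n → ι → Bool) | Φ g p.1 ≤ 1 / 2} :=
    isClosed_le ((hy g).comp continuous_fst) continuous_const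
  convert h1.isOpen.isClosed_compl.union h2 using 1
  ext p
  simp only [mem_ofPred_eq, mem_union, mem_compl_iff]
  tauto

theorem finite_minimal
    (hg : ∀ g y (O : Set ℝ), IsOpen O → Φ g y ∈ O →
      ∃ T : Finset (ι → Bool), ∀ g' : C(ι → Bool, Bool), (∀ x ∈ T, g' x = g x) → Φ g' y ∈ O)
    (n : ℕ) (σ : Fin n → Bool) (y : ι → unitInterval) :
    {s | (y, s) ∈ Gam Φ n σ ∧ ∃ b, s ∈ Pat n σ b ∧
      ∀ m < n, ∀ τ : Fin m → Bool, y ∉ AA (Gam Φ m τ) (Pat m τ b)}.Finite := by
  classical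
  by_contra hinf
  set M := {s | (y, s) ∈ Gam Φ n σ ∧ ∃ b, s ∈ Pat n σ b ∧
      ∀ m < n, ∀ τ : Fin m → Bool, y ∉ AA (Gam Φ m τ) (Pat m τ b)} with hM
  have hne : (cofinite ⊓ 𝓟 M).NeBot := by
    rw [← frequently_mem_iff_neBot, frequently_cofinite_mem_iff_infinite]
    exact hinf
  obtain ⟨𝒰, h𝒰⟩ := Filter.exists_ultrafilter_le (cofinite ⊓ 𝓟 M)
  have h𝒰M : M ∈ 𝒰 := h𝒰 (mem_inf_of_right (mem_principal_self M))
  have h𝒰c : ∀ s : Set (Fin n → ι → Bool), s.Finite → s ∉ 𝒰 := fun s hs h =>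
    (Ultrafilter.compl_mem_iff_notMem.1 (h𝒰 (mem_inf_of_left hs.compl_mem_cofinite))) h
  let C : Finset (Fin n) := Finset.univ.filter fun i => ∃ x, {s : Fin n → ι → Bool | s i = x} ∈ 𝒰
  have h1 : ∀ i, ∃ x : ι → Bool, i ∈ C → {s : Fin n → ι → Bool | s i = x} ∈ 𝒰 := by
    intro i
    by_cases hi : i ∈ C
    · obtain ⟨x, hx⟩ := (Finset.mem_filter.1 hi).2
      exact ⟨x, fun _ => hx⟩
    · exact ⟨fun _ => false, fun h => absurd h hi⟩
  choose x hx using h1
  have hconst : {s : Fin n → ι → Bool | ∀ i ∈ C, s i = x i} ∈ 𝒰 := by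
    have := (biInter_finset_mem (f := (𝒰 : Filter (Fin n → ι → Bool))) C).2 fun i hi => hx i hi
    refine Filter.mem_of_superset this fun s hs i hi => ?_
    exact mem_iInter₂.1 hs i hi
  have hCne : C ≠ Finset.univ := by
    intro h
    refine h𝒰c _ ((finite_singleton x).subset fun s hs => ?_) hconst
    funext i
    exact hs i (h ▸ Finset.mem_univ i)
  have hcard : C.card < n := by
    have := Finset.card_lt_card (Finset.ssubset_univ_iff.2 hCne)
    simpa using this
  obtain ⟨s₀, hs₀M, hs₀C⟩ := Ultrafilter.nonempty_of_mem (inter_mem h𝒰M hconst)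
  obtain ⟨-, b₀, hb₀, hmin⟩ := hs₀M
  let e : Fin C.card ≃ C := C.equivFin.symm
  apply hmin C.card hcard (fun j => σ (e j))
  refine ⟨fun j => x (e j), fun j => ?_, fun g hgx => ?_⟩
  · show x (e j) b₀ = σ (e j)
    rw [← hs₀C _ (e j).2]
    exact hb₀ _
  · by_contra hcon
    obtain ⟨T, hT⟩ := hg g y (Ioi (1 / 2)) isOpen_Ioi (not_le.1 hcon)
    have havoid : {s : Fin n → ι → Bool | ∀ i, i ∉ C → s i ∉ T} ∈ 𝒰 := by
      have h2 : ∀ i, {s : Fin n → ι → Bool | i ∉ C → s i ∉ T} ∈ 𝒰 := by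
        intro i
        by_cases hi : i ∈ C
        · exact Filter.mem_of_superset univ_mem fun s _ h => absurd hi h
        · have h3 : ∀ t ∈ T, {s : Fin n → ι → Bool | s i = t}ᶜ ∈ 𝒰 := fun t _ =>
            Ultrafilter.compl_mem_iff_notMem.2 fun h =>
              hi (Finset.mem_filter.2 ⟨Finset.mem_univ _, t, h⟩)
          have := (biInter_finset_mem (f := (𝒰 : Filter (Fin n → ι → Bool))) T).2 h3
          refine Filter.mem_of_superset this fun s hs _ hsT => ?_
          exact mem_iInter₂.1 hs (s i) hsT rfl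
      have := (iInter_mem (f := (𝒰 : Filter (Fin n → ι → Bool)))).2 h2
      exact Filter.mem_of_superset this fun s hs i => mem_iInter.1 hs i
    obtain ⟨s, ⟨hsM, hsC⟩, hsT⟩ :=
      Ultrafilter.nonempty_of_mem (inter_mem (inter_mem h𝒰M hconst) havoid)
    obtain ⟨hsΓ, b, hb, -⟩ := hsM
    obtain ⟨h, hh1, hh2⟩ := exists_glue g (coord b) T (Finset.univ.image s)
    have h4 : Φ h y ≤ 1 / 2 := by
      apply hsΓ h
      intro i
      by_cases hiT : s i ∈ T
      · have hiC : i ∈ C := by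
          by_contra hiC
          exact hsT i hiC hiT
        have h5 := hgx (e.symm ⟨i, hiC⟩)
        simp only [Equiv.apply_symm_apply] at h5
        show h (s i) = σ i
        rw [hh1 _ hiT, hsC i hiC, h5]
      · show h (s i) = σ i
        rw [hh2 _ (Finset.mem_image_of_mem s (Finset.mem_univ i)) hiT]
        exact hb i
    exact absurd (hT h hh1) (not_lt.2 h4)

theorem exists_good_open [DecidableEq ι] (hy : ∀ g, Continuous (Φ g))
    (hg : ∀ g y (O : Set ℝ), IsOpen O → Φ g y ∈ O →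
      ∃ T : Finset (ι → Bool), ∀ g' : C(ι → Bool, Bool), (∀ x ∈ T, g' x = g x) → Φ g' y ∈ O)
    (hK : ∀ (g : C(ι → Bool, Bool)) (x : ι → Bool),
      Φ g (fun i => if x i then 1 else 0) = if g x then 1 else 0) (b : ι) :
    ∃ (p : Σ n : ℕ, Fin n → Bool) (V : Set (ι → unitInterval)), IsOpen V ∧ V.Nonempty ∧
      V ⊆ AA (Gam Φ p.1 p.2) (Pat p.1 p.2 b) ∧
      (∀ y ∈ V, 1 / 2 < Φ (coord b) (Function.update y b 1)) ∧
      ∀ y ∈ V, ∀ m < p.1, ∀ τ : Fin m → Bool, y ∉ AA (Gam Φ m τ) (Pat m τ b) := by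
  classical
  set V₀ : Set (ι → unitInterval) :=
    {y | Φ (coord b) y < 1 / 2} ∩ {y | 1 / 2 < Φ (coord b) (Function.update y b 1)} with hV₀
  have hV₀o : IsOpen V₀ :=
    (isOpen_lt (hy _) continuous_const).inter
      (isOpen_lt continuous_const ((hy _).comp (continuous_id.update b continuous_const)))
  have hV₀ne : V₀.Nonempty := by
    refine ⟨fun _ => 0, ?_, ?_⟩
    · have := hK (coord b) (fun _ => false)
      simp only [Bool.false_eq_true, if_false, coord, ContinuousMap.coe_mk] at this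
      show Φ (coord b) (fun _ => 0) < 1 / 2
      rw [coord, this]; norm_num
    · have := hK (coord b) (fun i => decide (i = b))
      simp only [decide_eq_true_eq, coord, ContinuousMap.coe_mk, if_true] at this
      have h2 : Function.update (fun _ : ι => (0 : unitInterval)) b 1 =
          fun i => if i = b then 1 else 0 := by
        funext i
        rw [Function.update_apply]
      show 1 / 2 < Φ (coord b) (Function.update (fun _ => 0) b 1)
      rw [h2, coord, this]; norm_num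
  have hclosed : ∀ (m : ℕ) (τ : Fin m → Bool), IsClosed (AA (Gam Φ m τ) (Pat m τ b)) :=
    fun m τ => AA_closed (Gam_closed Φ hy m τ) (Pat_clopen m τ b).isClosed
  have hcover : ∀ y ∈ V₀, ∃ (m : ℕ) (τ : Fin m → Bool), y ∈ AA (Gam Φ m τ) (Pat m τ b) := by
    intro y hyV
    obtain ⟨T, hT⟩ := hg (coord b) y (Iio (1 / 2)) isOpen_Iio hyV.1
    let e : Fin T.card ≃ T := T.equivFin.symm
    refine ⟨T.card, fun j => (e j : ι → Bool) b, fun j => e j, fun j => rfl, fun g hgx => ?_⟩
    refine le_of_lt (hT g fun x hx => ?_)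
    have := hgx (e.symm ⟨x, hx⟩)
    simpa [coord] using this
  have hdense : ∀ (m : ℕ) (τ : Fin m → Bool),
      ¬ (interior (AA (Gam Φ m τ) (Pat m τ b)) ∩ V₀).Nonempty →
      Dense ((AA (Gam Φ m τ) (Pat m τ b))ᶜ ∪ (closure V₀)ᶜ) := by
    intro m τ h
    rw [dense_iff_inter_open]
    intro O hO hOne
    by_contra hcon
    rw [not_nonempty_iff_eq_empty, eq_empty_iff_forall_notMem] at hcon
    have h1 : O ⊆ AA (Gam Φ m τ) (Pat m τ b) := fun z hz => by
      by_contra h2
      exact hcon z ⟨hz, Or.inl h2⟩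
    obtain ⟨z, hz⟩ := hOne
    have h2 : z ∈ closure V₀ := by
      by_contra h2
      exact hcon z ⟨hz, Or.inr h2⟩
    obtain ⟨w, hw1, hw2⟩ := mem_closure_iff.1 h2 O hO hz
    exact h ⟨w, interior_maximal h1 hO hw1, hw2⟩
  have hopen : ∀ (m : ℕ) (τ : Fin m → Bool),
      IsOpen ((AA (Gam Φ m τ) (Pat m τ b))ᶜ ∪ (closure V₀)ᶜ) := fun m τ =>
    (hclosed m τ).isOpen_compl.union isClosed_closure.isOpen_compl
  have hex : ∃ (m : ℕ) (τ : Fin m → Bool),
      (interior (AA (Gam Φ m τ) (Pat m τ b)) ∩ V₀).Nonempty := by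
    by_contra hcon
    push Not at hcon
    have h1 := dense_iInter_of_isOpen (ι := Σ n : ℕ, Fin n → Bool)
      (f := fun p => (AA (Gam Φ p.1 p.2) (Pat p.1 p.2 b))ᶜ ∪ (closure V₀)ᶜ)
      (fun p => hopen p.1 p.2) (fun p => hdense p.1 p.2 (by rw [hcon]; exact not_nonempty_empty))
    obtain ⟨z, hz1, hz2⟩ := h1.inter_open_nonempty V₀ hV₀o hV₀ne
    obtain ⟨m, τ, h2⟩ := hcover z hz1
    rcases mem_iInter.1 hz2 ⟨m, τ⟩ with h3 | h3
    · exact h3 h2
    · exact h3 (subset_closure hz1)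
  set n := Nat.find hex with hn
  obtain ⟨σ, hσ⟩ := Nat.find_spec hex
  have hmin : ∀ m < n, ∀ τ : Fin m → Bool,
      ¬ (interior (AA (Gam Φ m τ) (Pat m τ b)) ∩ V₀).Nonempty := fun m hm τ h =>
    Nat.find_min hex hm ⟨τ, h⟩
  let W : (Σ m : Fin n, Fin m → Bool) → Set (ι → unitInterval) :=
    fun p => (AA (Gam Φ p.1 p.2) (Pat p.1 p.2 b))ᶜ ∪ (closure V₀)ᶜ
  have hWo : IsOpen (⋂ p, W p) := isOpen_iInter_of_finite fun p => hopen p.1 p.2
  have hWd : Dense (⋂ p, W p) := dense_iInter_of_isOpen (fun p => hopen p.1 p.2)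
    (fun p => hdense p.1 p.2 (hmin p.1 p.1.2 p.2))
  refine ⟨⟨n, σ⟩, (interior (AA (Gam Φ n σ) (Pat n σ b)) ∩ V₀) ∩ ⋂ p, W p,
    (isOpen_interior.inter hV₀o).inter hWo,
    hWd.inter_open_nonempty _ (isOpen_interior.inter hV₀o) hσ,
    fun y hy => interior_subset hy.1.1, fun y hy => hy.1.2.2, fun y hy m hm τ h => ?_⟩
  rcases mem_iInter.1 hy.2 ⟨⟨m, hm⟩, τ⟩ with h3 | h3
  · exact h3 h
  · exact h3 (subset_closure hy.1.2)

theorem no_sep_cont [Uncountable ι] (hy : ∀ g, Continuous (Φ g))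
    (hg : ∀ g y (O : Set ℝ), IsOpen O → Φ g y ∈ O →
      ∃ T : Finset (ι → Bool), ∀ g' : C(ι → Bool, Bool), (∀ x ∈ T, g' x = g x) → Φ g' y ∈ O)
    (hK : ∀ (g : C(ι → Bool, Bool)) (x : ι → Bool),
      Φ g (fun i => if x i then 1 else 0) = if g x then 1 else 0) : False := by
  classical
  choose p V hVo hVne hV1 hV2 hV3 using exists_good_open Φ hy hg hK
  obtain ⟨⟨n, σ⟩, hB⟩ := pigeon (B := (univ : Set ι)) not_countable_univ p
  refine core (Gam_closed Φ hy n σ) hB (Pat n σ) (Pat_clopen n σ) V (fun b _ => hVo b)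
    (fun b _ => hVne b) ?_ ?_ ?_
  · rintro b ⟨-, hb⟩
    have := hV1 b
    rw [hb] at this
    exact this
  · rintro b - y hyV ⟨s, hs, hΓ⟩
    exact absurd (hΓ (coord b) hs) (not_le.2 (hV2 b y hyV))
  · intro y
    refine (finite_minimal Φ hg n σ y).subset ?_
    rintro s ⟨hs, b, ⟨-, hb⟩, hyV, hsb⟩
    refine ⟨hs, b, hsb, ?_⟩
    have := hV3 b y hyV
    rw [hb] at this
    exact this

end

theorem no_extender (ι : Type) [Uncountable ι] :
    ∃ K : Set (ι → unitInterval), IsClosed K ∧ Nonempty (K ≃ₜ (ι → Bool)) ∧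
      ¬ ∃ φ : {f : K → ℝ // Continuous f} → {f : (ι → unitInterval) → ℝ // Continuous f},
        Continuous φ ∧ ∀ (f : {f : K → ℝ // Continuous f}) (x : K), (φ f).1 x = f.1 x := by
  let j : (ι → Bool) → (ι → unitInterval) := fun x i => if x i then 1 else 0
  have hjc : Continuous j := continuous_pi fun i =>
    (continuous_of_discreteTopology (f := fun c : Bool => if c then (1 : unitInterval) else 0)).comp
      (continuous_apply i)
  have hji : Function.Injective j := by
    intro x x' h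
    funext i
    have := congrFun h i
    simp only [j] at this
    cases hx : x i <;> cases hx' : x' i <;> simp_all
  have hje : IsClosedEmbedding j := hjc.isClosedEmbedding hji
  let e : (ι → Bool) ≃ₜ range j := hje.isEmbedding.toHomeomorph
  refine ⟨range j, hje.isClosed_range, ⟨e.symm⟩, ?_⟩
  rintro ⟨φ, hφ, hext⟩
  let lift : C(ι → Bool, Bool) → {f : range j → ℝ // Continuous f} := fun g =>
    ⟨fun k => if g (e.symm k) then 1 else 0,
      (continuous_of_discreteTopology (f := fun c : Bool => if c then (1 : ℝ) else 0)).comp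
        (g.continuous.comp e.symm.continuous)⟩
  refine no_sep_cont (fun g y => (φ (lift g)).1 y) (fun g => (φ (lift g)).2) ?_ ?_
  · intro g y O hO hgO
    have h1 : Continuous fun f : {f : range j → ℝ // Continuous f} => (φ f).1 y :=
      (continuous_apply y).comp (continuous_subtype_val.comp hφ)
    obtain ⟨t, ht, ht'⟩ := isOpen_induced_iff.1 (hO.preimage h1)
    have h2 : (lift g).1 ∈ t := by
      have : lift g ∈ Subtype.val ⁻¹' t := ht' ▸ hgO
      exact this
    obtain ⟨I, u, hu, hI⟩ := isOpen_pi_iff.1 ht _ h2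
    classical
    refine ⟨I.image e.symm, fun g' hg' => ?_⟩
    have h3 : lift g' ∈ Subtype.val ⁻¹' t := by
      refine hI fun k hk => ?_
      have h4 : (lift g').1 k = (lift g).1 k := by
        simp only [lift, hg' _ (Finset.mem_image_of_mem _ hk)]
      rw [h4]
      exact (hu k hk).2
    rw [ht'] at h3
    exact h3
  · intro g x
    have := hext (lift g) (e x)
    simp only [lift, Homeomorph.symm_apply_apply] at this
    exact this

end Pool.Agent.P.MP_4f6efa_gt
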